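import Pool.Agent.Lib.MP_58ca84_co.Final

/-!
# Zero-free self-dual intervals exhausting the diamond interval

For every `q` in `(0, 1)` or `(1, 32/27)` there are self-dual intervals `I_2 ⊆ I_3 ⊆ ...` that
converge to the interval `[v⁻, v⁺]`, where `v⁺` is the middle root of `v ^ 3 - 2 q v - q ^ 2 = 0`
and `v⁻ = q / v⁺`, such that `(-1) ^ (n + α) Z(G; q, v) > 0` for every 2-connected multigraph `G`
with `n` vertices and at least `m` edges and all edge weights in `I_m` (`α = 1` if `q < 1` and
`α = 0` if `q > 1`).

Outline of the proof. For a connected matroid with an element `e0` (a two-terminal network) let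
`g`, `d` be the signed and normalised values of the contraction and of the deletion of `e0`, and
put `w = g / (g + q d)`, so that the effective weight `v` of the network satisfies
`1 + v = (1 - q) w`. Choosing a maximal 2-separating set avoiding `e0` one sees that every network
is a parallel composition, a series composition, or a mixture of two smaller networks; in the last
case `w` lies in `(0, 1)` as soon as the weight of one of the parts is `-1`. Hence mixing moves `w`
towards `[0, 1]`, and for large networks a bound `w ≤ W` can be improved by a definite amount as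
long as `W ≥ 1 / (1 + b)`, where `[q / b, b]` is a self-dual interval strictly inside `[v⁻, v⁺]`.
-/

open Set Filter Topology

namespace Pool.Agent.Results.MP_58ca84_co.DiamondIntervals

open Pool.Agent.MP_58ca84_co

theorem result (q : ℝ) (hq : (0 < q ∧ q < 1) ∨ (1 < q ∧ q < 32 / 27)) :
    ∃ vp : ℝ, IsMiddleRoot q vp ∧ (∀ x, IsMiddleRoot q x → x = vp) ∧
      ∃ lo hi : ℕ → ℝ,
        (∀ m, lo m < hi m) ∧
        (∀ m, ∀ v ∈ Icc (lo m) (hi m), q / v ∈ Icc (lo m) (hi m)) ∧
        (∀ m, Icc (lo m) (hi m) ⊆ Icc (lo (m + 1)) (hi (m + 1))) ∧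
        (∀ m, Icc (lo m) (hi m) ⊆ Icc (q / vp) vp) ∧
        Tendsto lo atTop (𝓝 (q / vp)) ∧ Tendsto hi atTop (𝓝 vp) ∧
        ∀ m : ℕ, 2 ≤ m → ∀ (V E : Type) [Fintype V] [Fintype E] (ends : E → Sym2 V),
          TwoConn ends → m ≤ Fintype.card E → ∀ v : E → ℝ,
            (∀ e, v e ∈ Icc (lo m) (hi m)) →
              0 < (-1) ^ (Fintype.card V + if q < 1 then 1 else 0) * ZG ends q v := by
  rcases hq with ⟨h1, h2⟩ | ⟨h1, h2⟩
  · exact Pool.Agent.MP_58ca84_co.main q h1 h2.ne (by linarith)
  · exact Pool.Agent.MP_58ca84_co.main q (by linarith) h1.ne' h2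

end Pool.Agent.Results.MP_58ca84_co.DiamondIntervals
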